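import Pool.Agent.H12.HK4

/-! No nonzero Hilbert-Schmidt Hankel operator with conjugate holomorphic symbol on a bounded
Reinhardt domain of dimension at least two. -/

open MeasureTheory
open scoped ComplexConjugate InnerProductSpace

namespace Pool.Agent.Results.MP_dc9318_an.NoHS

section Abstract

variable {H : Type} [NormedAddCommGroup H] [InnerProductSpace ℂ H]

/-- `M g w` reads `w = φ * g`. The operator `g ↦ (I - P) (φ * g)`, `P` the orthogonal projection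
onto `A`, is densely defined on `A` and `T` extends it. -/
def IsHankel (A : Submodule ℂ H) (M : H → H → Prop) (T : A → H) : Prop :=
  Dense {g : A | ∃ w, M g w} ∧
    ∀ (g : A) (w : H), M g w → w - T g ∈ A ∧ ∀ a ∈ A, ⟪a, T g⟫_ℂ = 0

/-- `∑ ‖T e_k‖² < ∞` for some orthonormal (Hilbert) basis of `A`. -/
def IsHS (A : Submodule ℂ H) (T : A → H) : Prop :=
  ∃ (ι : Type) (b : HilbertBasis ι ℂ A), Summable fun k => ‖T (b k)‖ ^ 2

/-- `S` is a subspace, and every bounded Hilbert-Schmidt extension of the Hankel operator on it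
given by `M` is zero. -/
def OnlyZeroHS (S : Set H) (M : H → H → Prop) : Prop :=
  ∃ A : Submodule ℂ H, (A : Set H) = S ∧
    ∀ T : A →L[ℂ] H, IsHankel A M T → IsHS A T → ∀ g, T g = 0

end Abstract

variable {n : ℕ}

/-- Lebesgue measure on `Ω`. -/
noncomputable def leb (Ω : Set (Fin n → ℂ)) : Measure (Fin n → ℂ) := volume.restrict Ω

/-- `L²(Ω)`. -/
def L2 (Ω : Set (Fin n → ℂ)) : Type := Lp ℂ 2 (leb Ω)

noncomputable instance instNormed (Ω : Set (Fin n → ℂ)) : NormedAddCommGroup (L2 Ω) :=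
  Lp.instNormedAddCommGroup (E := ℂ) (p := 2) (μ := leb Ω)

noncomputable instance instInner (Ω : Set (Fin n → ℂ)) : InnerProductSpace ℂ (L2 Ω) :=
  L2.innerProductSpace (E := ℂ) (μ := leb Ω)

/-- `g ∈ L²(Ω)` is the class of the function `u`. -/
def Rep (Ω : Set (Fin n → ℂ)) (g : L2 Ω) (u : (Fin n → ℂ) → ℂ) : Prop :=
  (Subtype.val g : (Fin n → ℂ) →ₘ[leb Ω] ℂ) =ᵐ[leb Ω] u

/-- The Bergman space `A²(Ω)`: classes in `L²(Ω)` of holomorphic functions. -/
def Bergman (Ω : Set (Fin n → ℂ)) : Set (L2 Ω) := {g | ∃ u, AnalyticOnNhd ℂ u Ω ∧ Rep Ω g u}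

/-- `w = conj f * g` in `L²(Ω)`. -/
def MulConj (Ω : Set (Fin n → ℂ)) (f : (Fin n → ℂ) → ℂ) (g w : L2 Ω) : Prop :=
  ∃ u, Rep Ω g u ∧ Rep Ω w fun z => conj (f z) * u z

/-- `Ω` is invariant under the coordinate rotations. -/
def Reinhardt (Ω : Set (Fin n → ℂ)) : Prop :=
  ∀ z ∈ Ω, ∀ θ : Fin n → ℝ, (fun j => Complex.exp (θ j * Complex.I) * z j) ∈ Ω

open Pool.Agent.H12 in
theorem result (n : ℕ) (hn : 2 ≤ n) (Ω : Set (Fin n → ℂ)) (ho : IsOpen Ω) (hc : IsConnected Ω)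
    (hb : Bornology.IsBounded Ω) (hR : Reinhardt Ω) (f : (Fin n → ℂ) → ℂ)
    (hf : AnalyticOnNhd ℂ f Ω) : OnlyZeroHS (Bergman Ω) (MulConj Ω f) := by
  refine ⟨HK4.Bergman Ω, rfl, fun T hT hs g => ?_⟩
  have h := HK4.main n hn Ω ho hc hb hR f hf T ⟨hT.1.mono ?_, fun g h => ?_⟩ hs
  · exact DFunLike.congr_fun h g
  · rintro g ⟨w, u, h1, h2⟩
    refine (Lp.memLp (show HK4.L2 Ω from w)).ae_eq (Filter.EventuallyEq.trans h2 ?_)
    filter_upwards [h1] with z hz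
    exact congrArg (fun t => conj (f z) * t) hz.symm
  · exact hT.2 g (MemLp.toLp _ h) ⟨_, Filter.EventuallyEq.rfl, MemLp.coeFn_toLp h⟩

end Pool.Agent.Results.MP_dc9318_an.NoHS
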